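import Pool.Agent.Helper6.AE.Cert.Trees
import Pool.Agent.Helper6.AE.Cert.TabC
import Pool.Agent.Helper6.AE.Cert.TabD6
import Pool.Agent.Helper6.AE.Cert.TabV4

set_option autoImplicit false
namespace Pool.Agent.Helper6.AE

theorem cM7_1_5 : rowC TnD6 TnV4 A0 A1 1 0 5 TnC_1 TnD6_1
  (.cons (.cons 0x82b36c13f (pk [0x180503000e905c04010076000000000ea6f8000000000ec9f716d43803014063000000000e9b583697640a02809030f47401004036000000000eb2973510fc090240703acb440501803516143814030181000000000eb2980000000000000c000000000e844700000000000000270438060280c32da4600a028123000000000eb297270438060280c3000000000e56983510fc09024070396b440501803516d184030140602c67f4140600c42da6000500c0633697640a0280903510fc090240740000000000000c000000000e56972da6000500c0633697640a0280903510fc090240743374600a0301803510fc0902407636322c0b0340d03510fc09024074000000000e5697000000000e56982c67f4140600c03510fc09024074000000000e8447000000000e84482c6438050180c10000000000000c000000000e2967000000000000002da438090240e300000000000000000000000dfcd8000000000e844700000000000000000000000dd0c81793840602c0d0165090090100742da438090240e33d20dc030080300f305404010076000000000dfcd71793840602c0d00f3054040100740000000000000c000000000dd0c700000000000000000000000dd0c816d43803014061000000000e29672da43803008031000000000e2968,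 0x265438120480e3265438120480e33808c405030180060030040080362d04381405024100000000000009000000000ed5b8265438120480e30000000000000a2836c40503006006003004008036265438120480e10000000000000b2da438090240e3265438120480e1000000000ed5b73374600a0301800600300400803616d43803014061265438120480e32da4600a0301833de72c250481d0391050240480e4265438120480e30000000000000900000000000009060030040080303acb44050180362d043818050301000000000ebe482da5e00500c063265438120480e10000000000000a060030040080303acb4405018036265438120480e10000000000000b000000000ed5b7000000000ec9f80000000000000c2da438090240e3265438120480e12da4600a028123000000000ebe47000000000ec9f8000000000ec9f70000000000000c000000000eb2973510fc090240703acb440601403523b2b81503019010e1a0280301840000000000000016d438030140632d0438180503033697640a02809030f47401004036000000000ebe472d0438140603012d02c4]) .nil) (.cons .nil (.cons .nil (.cons .nil (.cons .nil (.cons .nil (.cons .nil (.cons .nil (.cons .nil (.cons .nil (.cons .nil (.cons .nil (.cons .nil (.cons .nil (.cons .nil Rl.nil))))))))))))))) 5 = true := by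
  decide +kernel
theorem cM7_1_6 : rowC TnD6 TnV4 A0 A1 1 0 6 TnC_1 TnD6_1
  (.cons .nil (.cons .nil (.cons .nil (.cons .nil (.cons .nil (.cons .nil (.cons .nil (.cons .nil (.cons .nil (.cons .nil (.cons .nil (.cons .nil (.cons .nil (.cons .nil Rl.nil)))))))))))))) 6 = true := by
  decide +kernel
theorem cM7_1_7 : rowC TnD6 TnV4 A0 A1 1 0 7 TnC_1 TnD6_1
  (.cons .nil (.cons .nil (.cons .nil (.cons .nil (.cons .nil (.cons .nil (.cons .nil (.cons .nil (.cons .nil (.cons .nil (.cons .nil (.cons .nil (.cons .nil Rl.nil))))))))))))) 7 = true := by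
  decide +kernel
theorem cM7_1_8 : rowC TnD6 TnV4 A0 A1 1 0 8 TnC_1 TnD6_1
  (.cons .nil (.cons .nil (.cons .nil (.cons .nil (.cons .nil (.cons .nil (.cons .nil (.cons .nil (.cons .nil (.cons .nil (.cons .nil (.cons .nil Rl.nil)))))))))))) 8 = true := by
  decide +kernel
theorem cM7_1_9 : rowC TnD6 TnV4 A0 A1 1 0 9 TnC_1 TnD6_1
  (.cons .nil (.cons .nil (.cons .nil (.cons .nil (.cons .nil (.cons .nil (.cons .nil (.cons .nil (.cons .nil (.cons .nil (.cons .nil Rl.nil))))))))))) 9 = true := by
  decide +kernel
theorem cM7_1_10 : rowC TnD6 TnV4 A0 A1 1 0 10 TnC_1 TnD6_1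
  (.cons .nil (.cons .nil (.cons .nil (.cons .nil (.cons .nil (.cons .nil (.cons .nil (.cons .nil (.cons .nil (.cons .nil Rl.nil)))))))))) 10 = true := by
  decide +kernel
theorem cM7_1_11 : rowC TnD6 TnV4 A0 A1 1 0 11 TnC_1 TnD6_1
  (.cons .nil (.cons .nil (.cons .nil (.cons .nil (.cons .nil (.cons .nil (.cons .nil (.cons .nil (.cons .nil Rl.nil))))))))) 11 = true := by
  decide +kernel
theorem cM7_1_12 : rowC TnD6 TnV4 A0 A1 1 0 12 TnC_1 TnD6_1
  (.cons .nil (.cons .nil (.cons .nil (.cons .nil (.cons .nil (.cons .nil (.cons .nil (.cons .nil Rl.nil)))))))) 12 = true := by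
  decide +kernel
theorem cM7_1_13 : rowC TnD6 TnV4 A0 A1 1 0 13 TnC_1 TnD6_1
  (.cons .nil (.cons .nil (.cons .nil (.cons .nil (.cons .nil (.cons .nil (.cons .nil Rl.nil))))))) 13 = true := by
  decide +kernel
theorem cM7_1_14 : rowC TnD6 TnV4 A0 A1 1 0 14 TnC_1 TnD6_1
  (.cons .nil (.cons .nil (.cons .nil (.cons .nil (.cons .nil (.cons .nil Rl.nil)))))) 14 = true := by
  decide +kernel
theorem cM7_1_15 : rowC TnD6 TnV4 A0 A1 1 0 15 TnC_1 TnD6_1
  (.cons .nil (.cons .nil (.cons .nil (.cons .nil (.cons .nil Rl.nil))))) 15 = true := by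
  decide +kernel
theorem cM7_1_16 : rowC TnD6 TnV4 A0 A1 1 0 16 TnC_1 TnD6_1
  (.cons .nil (.cons .nil (.cons .nil (.cons .nil Rl.nil)))) 16 = true := by
  decide +kernel
theorem cM7_1_17 : rowC TnD6 TnV4 A0 A1 1 0 17 TnC_1 TnD6_1
  (.cons .nil (.cons .nil (.cons .nil Rl.nil))) 17 = true := by
  decide +kernel
theorem cM7_1_18 : rowC TnD6 TnV4 A0 A1 1 0 18 TnC_1 TnD6_1
  (.cons .nil (.cons .nil Rl.nil)) 18 = true := by
  decide +kernel
theorem cM7_1_19 : rowC TnD6 TnV4 A0 A1 1 0 19 TnC_1 TnD6_1
  (.cons .nil Rl.nil) 19 = true := by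
  decide +kernel
theorem cM7_2_0 : rowC TnD6 TnV4 A0 A1 0 1 0 TnC_2 TnD6_2
  (.cons .nil (.cons .nil (.cons .nil (.cons .nil (.cons .nil (.cons .nil (.cons .nil (.cons .nil (.cons .nil (.cons .nil (.cons .nil (.cons .nil (.cons .nil (.cons .nil (.cons .nil (.cons .nil (.cons .nil (.cons .nil (.cons .nil (.cons .nil Rl.nil)))))))))))))))))))) 0 = true := by
  decide +kernel
theorem cM7_2_1 : rowC TnD6 TnV4 A0 A1 0 1 1 TnC_2 TnD6_2
  (.cons .nil (.cons .nil (.cons .nil (.cons .nil (.cons .nil (.cons .nil (.cons .nil (.cons .nil (.cons .nil (.cons .nil (.cons .nil (.cons .nil (.cons .nil (.cons .nil (.cons .nil (.cons .nil (.cons .nil (.cons .nil (.cons .nil Rl.nil))))))))))))))))))) 1 = true := by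
  decide +kernel
theorem cM7_2_2 : rowC TnD6 TnV4 A0 A1 0 1 2 TnC_2 TnD6_2
  (.cons .nil (.cons .nil (.cons .nil (.cons .nil (.cons (.cons 0xce4610e3f (pk [0x80400c335b9ac130481b028a014030080442da460080400c335b9ac130481b028a0140300804435b9ac130481b028a0140300804632913c0b0500f028a014030080460000000000000a2da460080400c335b9ac130481b028a0140300804400000000126c27000000000c4878000000000000092d04381008018100000000127ac73da028060281203944380b028075000000000c5bf8000000000000000000000000000035b9ac130481b028a014030080462d60dc0d0380d028a0140300804600000000124f17000000000c6f9833a6b40902406028a0140300804639bc98090481b028a01403008044000000000c5bf83130240602809036b0600601c0d52d04381008018136b0600601c0d028a01403008046000000000000003b10580d0381a028a014030080462da460080400c335b9ac130481b028a014030080443b10580d0381a028a0140300804633a6b40902406028a0140300804635b9ac130481b028a01403008044000000000c3eb800000000123227000000000c48783130240602809036b0600601c0d5000000000c5bf82d0438100801810000000012409700000000125d970000000012982710c1b0200400c028a01403008044000000000c835800000000130f772d043804020061000000000cd3a826843808020061,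 0xf028a01403008046000000000c487832913c0b0500f028a014030080460000000000000a2d0438100801810000000012b5b7000000000c5bf82da438060280920000000012d377000000000000002da460080400c335b9ac130481b028a014030080442da460080400c335b9ac130481b028a014030080442da460080400c335b9ac130481b028a0140300804432e1340b0500f028a014030080460000000000000a2da460080400c335b9ac130481b028a014030080440000000012897700000000000009000000000c6f982da438060280923824140402406028a0140300804639bca8090481b028a0140300804400000000127ac72d043810080181000000000000002da460080400c335b9ac130481b028a0140300804435b9ac130481b028a0140300804632913c0b0500f028a014030080460000000000000a000000000c487832e1340b0500f028a0140300804635b9ac130481b028a014030080460000000000000b35b9ac130481b028a014030080460000000012897732e1340b0500f028a014030080463de3cc050280f028a0140300804635b9ac130481b028a014030080460000000000000b00000000128977000000000c487832913c0b0500f028a014030080460000000000000a000000000000092d0438100801812da460, 0x2d643806014093000000000000002da43806028093000000000d25f800000000130f772295980802018035e060030140442da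4380602809339c0240100402039a22805014076000000000c83582da4380602809336b0600601c0d0313024010080263824140402406031302401008026397c70130480d03130240100802436b0600601c0d03130240100802600000000127ac72d043810080181000000000cab4836b0600601c0d03130240100802600000000125d970000000012982710c1b0200400c0313024010080242c54380502807315509c0b05007028a01403008044000000000000002da4380d0501231680980b05007028a014030080460000000000000a2da4380d0501232da460080400c335b9ac130481b028a0140300804432e1340b0500f028a01403008046000000000000092da460080400c335b9ac130481b028a014030080442da4380d050123000000000000090000000012a6e73d217c160500f028a014030080460000000000000a000000000c6f980000000012b5b72d04381008018115509c0b05007028a0140300804632e1340b0500f028a014030080462da460080400c335b9ac130481b028a0140300804432e1340b0500f028a01403008046000000000000090000000012a6e732913c0b0500]) .nil) (.cons .nil (.cons .nil (.cons .nil (.cons .nil (.cons .nil (.cons .nil (.cons .nil (.cons .nil (.cons .nil (.cons .nil (.cons .nil (.cons .nil (.cons .nil Rl.nil)))))))))))))))))) 2 = true := by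
  decide +kernel
theorem cM7_2_3 : rowC TnD6 TnV4 A0 A1 0 1 3 TnC_2 TnD6_2
  (.cons .nil (.cons .nil (.cons .nil (.cons .nil (.cons .nil (.cons .nil (.cons .nil (.cons .nil (.cons .nil (.cons .nil (.cons .nil (.cons .nil (.cons .nil (.cons .nil (.cons .nil (.cons .nil (.cons .nil Rl.nil))))))))))))))))) 3 = true := by
  decide +kernel
theorem cM7_2_4 : rowC TnD6 TnV4 A0 A1 0 1 4 TnC_2 TnD6_2
  (.cons .nil (.cons .nil (.cons .nil (.cons .nil (.cons .nil (.cons .nil (.cons .nil (.cons .nil (.cons .nil (.cons .nil (.cons .nil (.cons .nil (.cons .nil (.cons .nil (.cons .nil (.cons .nil Rl.nil)))))))))))))))) 4 = true := by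
  decide +kernel
theorem cM7_2_5 : rowC TnD6 TnV4 A0 A1 0 1 5 TnC_2 TnD6_2
  (.cons .nil (.cons .nil (.cons .nil (.cons .nil (.cons .nil (.cons .nil (.cons .nil (.cons .nil (.cons .nil (.cons .nil (.cons .nil (.cons .nil (.cons .nil (.cons .nil (.cons .nil Rl.nil))))))))))))))) 5 = true := by
  decide +kernel
theorem cM7_2_6 : rowC TnD6 TnV4 A0 A1 0 1 6 TnC_2 TnD6_2
  (.cons .nil (.cons .nil (.cons .nil (.cons .nil (.cons .nil (.cons .nil (.cons .nil (.cons .nil (.cons .nil (.cons .nil (.cons .nil (.cons .nil (.cons .nil (.cons .nil Rl.nil)))))))))))))) 6 = true := by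
  decide +kernel
theorem cM7_2_7 : rowC TnD6 TnV4 A0 A1 0 1 7 TnC_2 TnD6_2
  (.cons .nil (.cons .nil (.cons .nil (.cons .nil (.cons .nil (.cons .nil (.cons .nil (.cons .nil (.cons .nil (.cons .nil (.cons .nil (.cons .nil (.cons .nil Rl.nil))))))))))))) 7 = true := by
  decide +kernel
theorem cM7_2_8 : rowC TnD6 TnV4 A0 A1 0 1 8 TnC_2 TnD6_2
  (.cons .nil (.cons .nil (.cons .nil (.cons .nil (.cons .nil (.cons .nil (.cons .nil (.cons .nil (.cons .nil (.cons .nil (.cons .nil (.cons .nil Rl.nil)))))))))))) 8 = true := by
  decide +kernel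
theorem cM7_2_9 : rowC TnD6 TnV4 A0 A1 0 1 9 TnC_2 TnD6_2
  (.cons .nil (.cons .nil (.cons .nil (.cons .nil (.cons .nil (.cons .nil (.cons .nil (.cons .nil (.cons .nil (.cons .nil (.cons .nil Rl.nil))))))))))) 9 = true := by
  decide +kernel
theorem cM7_2_10 : rowC TnD6 TnV4 A0 A1 0 1 10 TnC_2 TnD6_2
  (.cons .nil (.cons .nil (.cons .nil (.cons .nil (.cons .nil (.cons .nil (.cons .nil (.cons .nil (.cons .nil (.cons .nil Rl.nil)))))))))) 10 = true := by
  decide +kernel
theorem cM7_2_11 : rowC TnD6 TnV4 A0 A1 0 1 11 TnC_2 TnD6_2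
  (.cons .nil (.cons .nil (.cons .nil (.cons .nil (.cons .nil (.cons .nil (.cons .nil (.cons .nil (.cons .nil Rl.nil))))))))) 11 = true := by
  decide +kernel
theorem cM7_2_12 : rowC TnD6 TnV4 A0 A1 0 1 12 TnC_2 TnD6_2
  (.cons .nil (.cons .nil (.cons .nil (.cons .nil (.cons .nil (.cons .nil (.cons .nil (.cons .nil Rl.nil)))))))) 12 = true := by
  decide +kernel
theorem cM7_2_13 : rowC TnD6 TnV4 A0 A1 0 1 13 TnC_2 TnD6_2
  (.cons .nil (.cons .nil (.cons .nil (.cons .nil (.cons .nil (.cons .nil (.cons .nil Rl.nil))))))) 13 = true := by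
  decide +kernel
theorem cM7_2_14 : rowC TnD6 TnV4 A0 A1 0 1 14 TnC_2 TnD6_2
  (.cons .nil (.cons .nil (.cons .nil (.cons .nil (.cons .nil (.cons .nil Rl.nil)))))) 14 = true := by
  decide +kernel
theorem cM7_2_15 : rowC TnD6 TnV4 A0 A1 0 1 15 TnC_2 TnD6_2
  (.cons .nil (.cons .nil (.cons .nil (.cons .nil (.cons .nil Rl.nil))))) 15 = true := by
  decide +kernel
theorem cM7_2_16 : rowC TnD6 TnV4 A0 A1 0 1 16 TnC_2 TnD6_2
  (.cons .nil (.cons .nil (.cons .nil (.cons .nil Rl.nil)))) 16 = true := by
  decide +kernel
theorem cM7_2_17 : rowC TnD6 TnV4 A0 A1 0 1 17 TnC_2 TnD6_2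
  (.cons .nil (.cons .nil (.cons .nil Rl.nil))) 17 = true := by
  decide +kernel
theorem cM7_2_18 : rowC TnD6 TnV4 A0 A1 0 1 18 TnC_2 TnD6_2
  (.cons .nil (.cons .nil Rl.nil)) 18 = true := by
  decide +kernel
theorem cM7_2_19 : rowC TnD6 TnV4 A0 A1 0 1 19 TnC_2 TnD6_2
  (.cons .nil Rl.nil) 19 = true := by
  decide +kernel
theorem cM7_3_0 : rowC TnD6 TnV4 A0 A1 1 1 0 TnC_3 TnD6_3
  (.cons .nil (.cons .nil (.cons (.cons 0x6e8b21e2e (pk [0xa0481203da0f00e0481a42da460200501833c61501c0480d030e1281d0481a4000000001290c834a60c0a0481203da0f00e0481a6000000000000092da48808014063343780150480903df2a00e0240d40000000000000b2da5c8080280633d91401c0481a030e1281d0481a434a60c0a0481203da0f00e0481a6000000000000092c0874080280c3343780150480903df2a00e0240d40000000000000b000000001289782c62e0120340b0216460110280c634560c0a0481203da0f00e0481a40000000000000a2da460200501833c61501c0480d03021281d0481a4216460110280c03da0f00e0481a62da4380e0480d10000000000000a00000000127ac82da5c8080280632da4380e0480d100000000125d98000000001298282da460200601432da46020060143000000000000092c6310120340b03637ac1006014600000000184d17000000001856b700000000000000000000001843772da488080180522da4380200c02300000000181d272d0438100280c12da4380200c0230000000017d13700000000130f782da4380200c023000000000000002da4380200c02300000000130f780000000016f2e7000000000000002da4380200c02300000000130f780000000016aaa700000000173c171d0230040140603a426405024094,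 0x2da438040180532da7ac040180533714b00a04809035d220090340b42da4380200c02300000000181d272da4380200c0230000000017d1372d0438100280c1000000001389c81fd438080280c1000000000000002da438040180532da488080140632da60c0a0481213714b00a0480901fd214090340b60000000000000b000000000000092da460200501832da46020050183000000000000092da460200501830000000000000b2c0874080280c30000000000000a3df2a00e0240d034560c0a0481240000000012d3783714b00a0480902c62e0120340b62da460200601432c6438120340b30000000000000934560c0a04812013e094240341740000000012d378000000001860572c62e0120340b03da0f00e0481a634a60c]) .nil) (.cons .nil (.cons .nil (.cons .nil (.cons .nil (.cons .nil (.cons .nil (.cons .nil (.cons .nil (.cons .nil (.cons .nil (.cons .nil (.cons .nil (.cons .nil (.cons .nil (.cons .nil (.cons .nil (.cons .nil Rl.nil)))))))))))))))))))) 0 = true := by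
  decide +kernel
theorem cM7_3_1 : rowC TnD6 TnV4 A0 A1 1 1 1 TnC_3 TnD6_3
  (.cons .nil (.cons .nil (.cons .nil (.cons .nil (.cons .nil (.cons .nil (.cons .nil (.cons .nil (.cons .nil (.cons .nil (.cons .nil (.cons .nil (.cons .nil (.cons .nil (.cons .nil (.cons .nil (.cons .nil (.cons .nil (.cons .nil Rl.nil))))))))))))))))))) 1 = true := by
  decide +kernel
theorem cM7_3_2 : rowC TnD6 TnV4 A0 A1 1 1 2 TnC_3 TnD6_3
  (.cons .nil (.cons .nil (.cons .nil (.cons .nil (.cons .nil (.cons .nil (.cons .nil (.cons .nil (.cons .nil (.cons .nil (.cons .nil (.cons .nil (.cons .nil (.cons .nil (.cons .nil (.cons .nil (.cons .nil (.cons .nil Rl.nil)))))))))))))))))) 2 = true := by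
  decide +kernel
theorem cM7_3_3 : rowC TnD6 TnV4 A0 A1 1 1 3 TnC_3 TnD6_3
  (.cons .nil (.cons .nil (.cons .nil (.cons .nil (.cons .nil (.cons .nil (.cons .nil (.cons .nil (.cons .nil (.cons .nil (.cons .nil (.cons .nil (.cons .nil (.cons .nil (.cons .nil (.cons .nil (.cons .nil Rl.nil))))))))))))))))) 3 = true := by
  decide +kernel
theorem cM7_3_4 : rowC TnD6 TnV4 A0 A1 1 1 4 TnC_3 TnD6_3
  (.cons .nil (.cons .nil (.cons .nil (.cons (.cons 0x295d96c3a 0x2da438010040232da438010040232da43801004023000000000000002da438010040230cf0f00b0280903951c40a02c216000000000b1ff82da488080401022da43801004023000000000000002c9438150584232cf84810040203000000000000092da43801004023000000001061073b75a40804020039b02810040215000000000b1ff83d0c580b0a81303941c40a02c2142da5ec100401033d0c580b0a81303941c40a02c2140000000000000a2da43801004023000000001054171702400b0281303941c40a02c2140000000000000a2da4380100402300000000103a47000000000b31a82da4380100402300000000100727000000000b55582da43801004023000000000fa2c7000000000b9e181d646402008041 .nil) (.cons .nil (.cons (.cons 0x9c7c9e33e (pk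 [0x2da438030140c32da438030140c32da5f00501805320e438060140c1000000000f10d70000000000000b2da438030140c32da438030140c32da5f00501805320e438060140c1000000000f10d70000000000000b00000000000009000000000f40e70000000000000b397038060440e033147803014065000000000fa2c72da43803014063000000000000003494600a0601403a328c010080362da5f0050180533a3b68140c02803a328c010080340000000000000b2da5f0050180533a3b68140c02803a328c01008034000000000000002da438030140c32da438030140c32da5f00501805320e438060140c1000000000f10d70000000000000b2da438030140c32da438030140c32da5f00501805320e438060140c1000000000f10d70000000000000b00000000000009000000000f40e70000000000000b00000000000009397038060440e02c855403028065000000000fa2c700000000000009000000000000092da5f0050180533788c4050601403a328c01008034000000000927883b75ec050180503a328c01008036000000000920482787f8180600903a328c010080342da5f005018053000000000000092c64380603009100000000092ec800000000094c08000000000987b82174a00100c0203a328c01008034, 0xb81092c80a0181403a328c010080342c67b40500c0a03a328c010080342da44003014063000000000000002da4380301406339d87801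0040203a328c010080362da4380c0281832da5f00501805320e438060140c1000000000f10d700000000093d5835c840050180a03a328c010080360000000000000035e0240d0440e017d0880300806636b1280a0301403a328c010080361c500c0d04407017d088030080660000000000000b0000000000000b35e0240d0440e017d088030080660000000000000039d878010040203a328c01008036000000000f10d70000000000000b000000000000092da4380c0281830000000000000935c840050180a03a328c01008036000000000944a82da438030140620000000000000935c840050180a03a328c0100803600000000093d5800000000000009000000000f40e73c476c030280c039703801010035000000000fa2c7278800180600903a328c0100803426c3800c0300903a328c010080342da5f0050180533788c4050601403a328c010080342da4380301406300000000000000000000000000002da438030140c32da5f00501805320e438060140c1000000000f10d72da438030140c32da5f00501805320e438060140c1000000000f10d700000000000009000000000f40e7000000, 0x39d878010040203a328c0100803639d878010040203a328c0100803639d878010040203a328c010080362da44003014063000000000000002da438030140632da4380301406329649c050480903a328c01008034000000000f40e7397038010100303708e803014035000000000fa2c700000000000009000000000969])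 .nil) (.cons .nil (.cons .nil (.cons .nil (.cons .nil (.cons .nil (.cons .nil (.cons .nil (.cons .nil (.cons .nil (.cons .nil Rl.nil)))))))))))))))) 4 = true := by
  decide +kernel
theorem cM7_3_5 : rowC TnD6 TnV4 A0 A1 1 1 5 TnC_3 TnD6_3
  (.cons .nil (.cons .nil (.cons .nil (.cons .nil (.cons .nil (.cons .nil (.cons .nil (.cons .nil (.cons .nil (.cons .nil (.cons .nil (.cons .nil (.cons .nil (.cons .nil (.cons .nil Rl.nil))))))))))))))) 5 = true := by
  decide +kernel
theorem cM7_3_6 : rowC TnD6 TnV4 A0 A1 1 1 6 TnC_3 TnD6_3
  (.cons .nil (.cons .nil (.cons .nil (.cons .nil (.cons .nil (.cons .nil (.cons .nil (.cons .nil (.cons .nil (.cons .nil (.cons .nil (.cons .nil (.cons .nil (.cons .nil Rl.nil)))))))))))))) 6 = true := by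
  decide +kernel
theorem cM7_3_7 : rowC TnD6 TnV4 A0 A1 1 1 7 TnC_3 TnD6_3
  (.cons .nil (.cons .nil (.cons .nil (.cons .nil (.cons .nil (.cons .nil (.cons .nil (.cons .nil (.cons .nil (.cons .nil (.cons .nil (.cons .nil (.cons .nil Rl.nil))))))))))))) 7 = true := by
  decide +kernel
theorem cM7_3_8 : rowC TnD6 TnV4 A0 A1 1 1 8 TnC_3 TnD6_3
  (.cons .nil (.cons .nil (.cons .nil (.cons .nil (.cons .nil (.cons .nil (.cons .nil (.cons .nil (.cons .nil (.cons .nil (.cons .nil (.cons .nil Rl.nil)))))))))))) 8 = true := by
  decide +kernel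
theorem cM7_3_9 : rowC TnD6 TnV4 A0 A1 1 1 9 TnC_3 TnD6_3
  (.cons .nil (.cons .nil (.cons .nil (.cons .nil (.cons .nil (.cons .nil (.cons .nil (.cons .nil (.cons .nil (.cons .nil (.cons .nil Rl.nil))))))))))) 9 = true := by
  decide +kernel
theorem cM7_3_10 : rowC TnD6 TnV4 A0 A1 1 1 10 TnC_3 TnD6_3
  (.cons .nil (.cons .nil (.cons .nil (.cons .nil (.cons .nil (.cons .nil (.cons .nil (.cons .nil (.cons .nil (.cons .nil Rl.nil)))))))))) 10 = true := by
  decide +kernel
theorem cM7_3_11 : rowC TnD6 TnV4 A0 A1 1 1 11 TnC_3 TnD6_3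
  (.cons .nil (.cons .nil (.cons .nil (.cons .nil (.cons .nil (.cons .nil (.cons .nil (.cons .nil (.cons .nil Rl.nil))))))))) 11 = true := by
  decide +kernel
theorem cM7_3_12 : rowC TnD6 TnV4 A0 A1 1 1 12 TnC_3 TnD6_3
  (.cons .nil (.cons .nil (.cons .nil (.cons .nil (.cons .nil (.cons .nil (.cons .nil (.cons .nil Rl.nil)))))))) 12 = true := by
  decide +kernel
theorem cM7_3_13 : rowC TnD6 TnV4 A0 A1 1 1 13 TnC_3 TnD6_3
  (.cons .nil (.cons .nil (.cons .nil (.cons .nil (.cons .nil (.cons .nil (.cons .nil Rl.nil))))))) 13 = true := by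
  decide +kernel
theorem cM7_3_14 : rowC TnD6 TnV4 A0 A1 1 1 14 TnC_3 TnD6_3
  (.cons .nil (.cons .nil (.cons .nil (.cons .nil (.cons .nil (.cons .nil Rl.nil)))))) 14 = true := by
  decide +kernel
theorem cM7_3_15 : rowC TnD6 TnV4 A0 A1 1 1 15 TnC_3 TnD6_3
  (.cons .nil (.cons .nil (.cons .nil (.cons .nil (.cons .nil Rl.nil))))) 15 = true := by
  decide +kernel
theorem cM7_3_16 : rowC TnD6 TnV4 A0 A1 1 1 16 TnC_3 TnD6_3
  (.cons .nil (.cons .nil (.cons .nil (.cons .nil Rl.nil)))) 16 = true := by
  decide +kernel
theorem cM7_3_17 : rowC TnD6 TnV4 A0 A1 1 1 17 TnC_3 TnD6_3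
  (.cons .nil (.cons .nil (.cons .nil Rl.nil))) 17 = true := by
  decide +kernel
theorem cM7_3_18 : rowC TnD6 TnV4 A0 A1 1 1 18 TnC_3 TnD6_3
  (.cons .nil (.cons .nil Rl.nil)) 18 = true := by
  decide +kernel
theorem cM7_3_19 : rowC TnD6 TnV4 A0 A1 1 1 19 TnC_3 TnD6_3
  (.cons .nil Rl.nil) 19 = true := by
  decide +kernel

end Pool.Agent.Helper6.AE
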