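import Pool.Agent.Helper6.AE.Cert.C03
import Pool.Agent.Helper6.AE.Cert.C04
import Pool.Agent.Helper6.AE.Cert.C05
import Pool.Agent.Helper6.AE.Cert.C06
import Pool.Agent.Helper6.AE.Cert.C07
import Pool.Agent.Helper6.AE.Cert.C08

set_option autoImplicit false
namespace Pool.Agent.Helper6.AE

theorem lR2_0 (i : Nat) (hi : i < 20) : ∃ L, rowC TnT1 TnV4 A0 A1 0 0 i TnT2_0 TnT1_0 L i = true := by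
  have h : i = 0 ∨ i = 1 ∨ i = 2 ∨ i = 3 ∨ i = 4 ∨ i = 5 ∨ i = 6 ∨ i = 7 ∨ i = 8 ∨ i = 9 ∨ i = 10 ∨ i = 11 ∨ i = 12 ∨ i = 13 ∨ i = 14 ∨ i = 15 ∨ i = 16 ∨ i = 17 ∨ i = 18 ∨ i = 19 := by omega
  rcases h with rfl | rfl | rfl | rfl | rfl | rfl | rfl | rfl | rfl | rfl | rfl | rfl | rfl | rfl | rfl | rfl | rfl | rfl | rfl | rfl
  · exact ⟨_, cR2_0_0⟩
  · exact ⟨_, cR2_0_1⟩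
  · exact ⟨_, cR2_0_2⟩
  · exact ⟨_, cR2_0_3⟩
  · exact ⟨_, cR2_0_4⟩
  · exact ⟨_, cR2_0_5⟩
  · exact ⟨_, cR2_0_6⟩
  · exact ⟨_, cR2_0_7⟩
  · exact ⟨_, cR2_0_8⟩
  · exact ⟨_, cR2_0_9⟩
  · exact ⟨_, cR2_0_10⟩
  · exact ⟨_, cR2_0_11⟩
  · exact ⟨_, cR2_0_12⟩
  · exact ⟨_, cR2_0_13⟩
  · exact ⟨_, cR2_0_14⟩
  · exact ⟨_, cR2_0_15⟩
  · exact ⟨_, cR2_0_16⟩
  · exact ⟨_, cR2_0_17⟩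
  · exact ⟨_, cR2_0_18⟩
  · exact ⟨_, cR2_0_19⟩

theorem lR2_1 (i : Nat) (hi : i < 20) : ∃ L, rowC TnT1 TnV4 A0 A1 1 0 i TnT2_1 TnT1_1 L i = true := by
  have h : i = 0 ∨ i = 1 ∨ i = 2 ∨ i = 3 ∨ i = 4 ∨ i = 5 ∨ i = 6 ∨ i = 7 ∨ i = 8 ∨ i = 9 ∨ i = 10 ∨ i = 11 ∨ i = 12 ∨ i = 13 ∨ i = 14 ∨ i = 15 ∨ i = 16 ∨ i = 17 ∨ i = 18 ∨ i = 19 := by omega
  rcases h with rfl | rfl | rfl | rfl | rfl | rfl | rfl | rfl | rfl | rfl | rfl | rfl | rfl | rfl | rfl | rfl | rfl | rfl | rfl | rfl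
  · exact ⟨_, cR2_1_0⟩
  · exact ⟨_, cR2_1_1⟩
  · exact ⟨_, cR2_1_2⟩
  · exact ⟨_, cR2_1_3⟩
  · exact ⟨_, cR2_1_4⟩
  · exact ⟨_, cR2_1_5⟩
  · exact ⟨_, cR2_1_6⟩
  · exact ⟨_, cR2_1_7⟩
  · exact ⟨_, cR2_1_8⟩
  · exact ⟨_, cR2_1_9⟩
  · exact ⟨_, cR2_1_10⟩
  · exact ⟨_, cR2_1_11⟩
  · exact ⟨_, cR2_1_12⟩
  · exact ⟨_, cR2_1_13⟩
  · exact ⟨_, cR2_1_14⟩
  · exact ⟨_, cR2_1_15⟩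
  · exact ⟨_, cR2_1_16⟩
  · exact ⟨_, cR2_1_17⟩
  · exact ⟨_, cR2_1_18⟩
  · exact ⟨_, cR2_1_19⟩

theorem lR2_2 (i : Nat) (hi : i < 20) : ∃ L, rowC TnT1 TnV4 A0 A1 0 1 i TnT2_2 TnT1_2 L i = true := by
  have h : i = 0 ∨ i = 1 ∨ i = 2 ∨ i = 3 ∨ i = 4 ∨ i = 5 ∨ i = 6 ∨ i = 7 ∨ i = 8 ∨ i = 9 ∨ i = 10 ∨ i = 11 ∨ i = 12 ∨ i = 13 ∨ i = 14 ∨ i = 15 ∨ i = 16 ∨ i = 17 ∨ i = 18 ∨ i = 19 := by omega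
  rcases h with rfl | rfl | rfl | rfl | rfl | rfl | rfl | rfl | rfl | rfl | rfl | rfl | rfl | rfl | rfl | rfl | rfl | rfl | rfl | rfl
  · exact ⟨_, cR2_2_0⟩
  · exact ⟨_, cR2_2_1⟩
  · exact ⟨_, cR2_2_2⟩
  · exact ⟨_, cR2_2_3⟩
  · exact ⟨_, cR2_2_4⟩
  · exact ⟨_, cR2_2_5⟩
  · exact ⟨_, cR2_2_6⟩
  · exact ⟨_, cR2_2_7⟩
  · exact ⟨_, cR2_2_8⟩
  · exact ⟨_, cR2_2_9⟩
  · exact ⟨_, cR2_2_10⟩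
  · exact ⟨_, cR2_2_11⟩
  · exact ⟨_, cR2_2_12⟩
  · exact ⟨_, cR2_2_13⟩
  · exact ⟨_, cR2_2_14⟩
  · exact ⟨_, cR2_2_15⟩
  · exact ⟨_, cR2_2_16⟩
  · exact ⟨_, cR2_2_17⟩
  · exact ⟨_, cR2_2_18⟩
  · exact ⟨_, cR2_2_19⟩

theorem lR2_3 (i : Nat) (hi : i < 20) : ∃ L, rowC TnT1 TnV4 A0 A1 1 1 i TnT2_3 TnT1_3 L i = true := by
  have h : i = 0 ∨ i = 1 ∨ i = 2 ∨ i = 3 ∨ i = 4 ∨ i = 5 ∨ i = 6 ∨ i = 7 ∨ i = 8 ∨ i = 9 ∨ i = 10 ∨ i = 11 ∨ i = 12 ∨ i = 13 ∨ i = 14 ∨ i = 15 ∨ i = 16 ∨ i = 17 ∨ i = 18 ∨ i = 19 := by omega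
  rcases h with rfl | rfl | rfl | rfl | rfl | rfl | rfl | rfl | rfl | rfl | rfl | rfl | rfl | rfl | rfl | rfl | rfl | rfl | rfl | rfl
  · exact ⟨_, cR2_3_0⟩
  · exact ⟨_, cR2_3_1⟩
  · exact ⟨_, cR2_3_2⟩
  · exact ⟨_, cR2_3_3⟩
  · exact ⟨_, cR2_3_4⟩
  · exact ⟨_, cR2_3_5⟩
  · exact ⟨_, cR2_3_6⟩
  · exact ⟨_, cR2_3_7⟩
  · exact ⟨_, cR2_3_8⟩
  · exact ⟨_, cR2_3_9⟩
  · exact ⟨_, cR2_3_10⟩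
  · exact ⟨_, cR2_3_11⟩
  · exact ⟨_, cR2_3_12⟩
  · exact ⟨_, cR2_3_13⟩
  · exact ⟨_, cR2_3_14⟩
  · exact ⟨_, cR2_3_15⟩
  · exact ⟨_, cR2_3_16⟩
  · exact ⟨_, cR2_3_17⟩
  · exact ⟨_, cR2_3_18⟩
  · exact ⟨_, cR2_3_19⟩

theorem lR2 (ty i : Nat) (hty : ty < 4) (hi : i < 20) :
    ∃ L, rowC TnT1 TnV4 A0 A1 (ty % 2) (ty / 2) i (TnT2 ty) (TnT1 ty) L i = true := by
  have h : ty = 0 ∨ ty = 1 ∨ ty = 2 ∨ ty = 3 := by omega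
  rcases h with rfl | rfl | rfl | rfl
  · exact lR2_0 i hi
  · exact lR2_1 i hi
  · exact lR2_2 i hi
  · exact lR2_3 i hi

end Pool.Agent.Helper6.AE
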