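import Pool.Agent.Helper6.AE.Cert.C33
import Pool.Agent.Helper6.AE.Cert.C34
import Pool.Agent.Helper6.AE.Cert.C35
import Pool.Agent.Helper6.AE.Cert.C36
import Pool.Agent.Helper6.AE.Cert.C37
import Pool.Agent.Helper6.AE.Cert.C38
import Pool.Agent.Helper6.AE.Cert.C39
import Pool.Agent.Helper6.AE.Cert.C40

set_option autoImplicit false
namespace Pool.Agent.Helper6.AE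

theorem lW1_0 (i : Nat) (hi : i < 20) : ∃ L, rowC TnT5 TnV4 A0 A1 0 0 i TnV1_0 TnT5_0 L i = true := by
  have h : i = 0 ∨ i = 1 ∨ i = 2 ∨ i = 3 ∨ i = 4 ∨ i = 5 ∨ i = 6 ∨ i = 7 ∨ i = 8 ∨ i = 9 ∨ i = 10 ∨ i = 11 ∨ i = 12 ∨ i = 13 ∨ i = 14 ∨ i = 15 ∨ i = 16 ∨ i = 17 ∨ i = 18 ∨ i = 19 := by omega
  rcases h with rfl | rfl | rfl | rfl | rfl | rfl | rfl | rfl | rfl | rfl | rfl | rfl | rfl | rfl | rfl | rfl | rfl | rfl | rfl | rfl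
  · exact ⟨_, cW1_0_0⟩
  · exact ⟨_, cW1_0_1⟩
  · exact ⟨_, cW1_0_2⟩
  · exact ⟨_, cW1_0_3⟩
  · exact ⟨_, cW1_0_4⟩
  · exact ⟨_, cW1_0_5⟩
  · exact ⟨_, cW1_0_6⟩
  · exact ⟨_, cW1_0_7⟩
  · exact ⟨_, cW1_0_8⟩
  · exact ⟨_, cW1_0_9⟩
  · exact ⟨_, cW1_0_10⟩
  · exact ⟨_, cW1_0_11⟩
  · exact ⟨_, cW1_0_12⟩
  · exact ⟨_, cW1_0_13⟩
  · exact ⟨_, cW1_0_14⟩
  · exact ⟨_, cW1_0_15⟩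
  · exact ⟨_, cW1_0_16⟩
  · exact ⟨_, cW1_0_17⟩
  · exact ⟨_, cW1_0_18⟩
  · exact ⟨_, cW1_0_19⟩

theorem lW1_1 (i : Nat) (hi : i < 20) : ∃ L, rowC TnT5 TnV4 A0 A1 1 0 i TnV1_1 TnT5_1 L i = true := by
  have h : i = 0 ∨ i = 1 ∨ i = 2 ∨ i = 3 ∨ i = 4 ∨ i = 5 ∨ i = 6 ∨ i = 7 ∨ i = 8 ∨ i = 9 ∨ i = 10 ∨ i = 11 ∨ i = 12 ∨ i = 13 ∨ i = 14 ∨ i = 15 ∨ i = 16 ∨ i = 17 ∨ i = 18 ∨ i = 19 := by omega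
  rcases h with rfl | rfl | rfl | rfl | rfl | rfl | rfl | rfl | rfl | rfl | rfl | rfl | rfl | rfl | rfl | rfl | rfl | rfl | rfl | rfl
  · exact ⟨_, cW1_1_0⟩
  · exact ⟨_, cW1_1_1⟩
  · exact ⟨_, cW1_1_2⟩
  · exact ⟨_, cW1_1_3⟩
  · exact ⟨_, cW1_1_4⟩
  · exact ⟨_, cW1_1_5⟩
  · exact ⟨_, cW1_1_6⟩
  · exact ⟨_, cW1_1_7⟩
  · exact ⟨_, cW1_1_8⟩
  · exact ⟨_, cW1_1_9⟩
  · exact ⟨_, cW1_1_10⟩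
  · exact ⟨_, cW1_1_11⟩
  · exact ⟨_, cW1_1_12⟩
  · exact ⟨_, cW1_1_13⟩
  · exact ⟨_, cW1_1_14⟩
  · exact ⟨_, cW1_1_15⟩
  · exact ⟨_, cW1_1_16⟩
  · exact ⟨_, cW1_1_17⟩
  · exact ⟨_, cW1_1_18⟩
  · exact ⟨_, cW1_1_19⟩

theorem lW1_2 (i : Nat) (hi : i < 20) : ∃ L, rowC TnT5 TnV4 A0 A1 0 1 i TnV1_2 TnT5_2 L i = true := by
  have h : i = 0 ∨ i = 1 ∨ i = 2 ∨ i = 3 ∨ i = 4 ∨ i = 5 ∨ i = 6 ∨ i = 7 ∨ i = 8 ∨ i = 9 ∨ i = 10 ∨ i = 11 ∨ i = 12 ∨ i = 13 ∨ i = 14 ∨ i = 15 ∨ i = 16 ∨ i = 17 ∨ i = 18 ∨ i = 19 := by omega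
  rcases h with rfl | rfl | rfl | rfl | rfl | rfl | rfl | rfl | rfl | rfl | rfl | rfl | rfl | rfl | rfl | rfl | rfl | rfl | rfl | rfl
  · exact ⟨_, cW1_2_0⟩
  · exact ⟨_, cW1_2_1⟩
  · exact ⟨_, cW1_2_2⟩
  · exact ⟨_, cW1_2_3⟩
  · exact ⟨_, cW1_2_4⟩
  · exact ⟨_, cW1_2_5⟩
  · exact ⟨_, cW1_2_6⟩
  · exact ⟨_, cW1_2_7⟩
  · exact ⟨_, cW1_2_8⟩
  · exact ⟨_, cW1_2_9⟩
  · exact ⟨_, cW1_2_10⟩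
  · exact ⟨_, cW1_2_11⟩
  · exact ⟨_, cW1_2_12⟩
  · exact ⟨_, cW1_2_13⟩
  · exact ⟨_, cW1_2_14⟩
  · exact ⟨_, cW1_2_15⟩
  · exact ⟨_, cW1_2_16⟩
  · exact ⟨_, cW1_2_17⟩
  · exact ⟨_, cW1_2_18⟩
  · exact ⟨_, cW1_2_19⟩

theorem lW1_3 (i : Nat) (hi : i < 20) : ∃ L, rowC TnT5 TnV4 A0 A1 1 1 i TnV1_3 TnT5_3 L i = true := by
  have h : i = 0 ∨ i = 1 ∨ i = 2 ∨ i = 3 ∨ i = 4 ∨ i = 5 ∨ i = 6 ∨ i = 7 ∨ i = 8 ∨ i = 9 ∨ i = 10 ∨ i = 11 ∨ i = 12 ∨ i = 13 ∨ i = 14 ∨ i = 15 ∨ i = 16 ∨ i = 17 ∨ i = 18 ∨ i = 19 := by omega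
  rcases h with rfl | rfl | rfl | rfl | rfl | rfl | rfl | rfl | rfl | rfl | rfl | rfl | rfl | rfl | rfl | rfl | rfl | rfl | rfl | rfl
  · exact ⟨_, cW1_3_0⟩
  · exact ⟨_, cW1_3_1⟩
  · exact ⟨_, cW1_3_2⟩
  · exact ⟨_, cW1_3_3⟩
  · exact ⟨_, cW1_3_4⟩
  · exact ⟨_, cW1_3_5⟩
  · exact ⟨_, cW1_3_6⟩
  · exact ⟨_, cW1_3_7⟩
  · exact ⟨_, cW1_3_8⟩
  · exact ⟨_, cW1_3_9⟩
  · exact ⟨_, cW1_3_10⟩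
  · exact ⟨_, cW1_3_11⟩
  · exact ⟨_, cW1_3_12⟩
  · exact ⟨_, cW1_3_13⟩
  · exact ⟨_, cW1_3_14⟩
  · exact ⟨_, cW1_3_15⟩
  · exact ⟨_, cW1_3_16⟩
  · exact ⟨_, cW1_3_17⟩
  · exact ⟨_, cW1_3_18⟩
  · exact ⟨_, cW1_3_19⟩

theorem lW1 (ty i : Nat) (hty : ty < 4) (hi : i < 20) :
    ∃ L, rowC TnT5 TnV4 A0 A1 (ty % 2) (ty / 2) i (TnV1 ty) (TnT5 ty) L i = true := by
  have h : ty = 0 ∨ ty = 1 ∨ ty = 2 ∨ ty = 3 := by omega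
  rcases h with rfl | rfl | rfl | rfl
  · exact lW1_0 i hi
  · exact lW1_1 i hi
  · exact lW1_2 i hi
  · exact lW1_3 i hi

end Pool.Agent.Helper6.AE
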