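import Pool.Agent.Helper6.AE.Cert.Trees

set_option autoImplicit false
namespace Pool.Agent.Helper6.AE

theorem okA0 : okT 0 A0 8 1 = true := by
  decide +kernel
theorem okA1 : okT 1 A1 8 1 = true := by
  decide +kernel

end Pool.Agent.Helper6.AE
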